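import Pool.Agent.H93.HQ.Targets

/-!
# Board hq_modules, module ROT: rotations preserve the measure
-/

set_option autoImplicit false

namespace Pool.Agent.H51.HQ

open MeasureTheory Set Pool.Agent.H80.HS Pool.Agent.H93.HQ
open scoped ContDiff ENNReal

/-- The rotation as a linear map. -/
noncomputable def rotL {n : ℕ} (θ : ℝ) : H n →ₗ[ℝ] H n where
  toFun := rot θ
  map_add' x y := by
    refine Prod.ext ?_ (Prod.ext ?_ ?_)
    · simp only [rot, Prod.fst_add, Prod.snd_add]; module
    · simp only [rot, Prod.fst_add, Prod.snd_add]; module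
    · simp only [rot, Prod.snd_add]
  map_smul' c x := by
    refine Prod.ext ?_ (Prod.ext ?_ ?_)
    · simp only [rot, Prod.smul_fst, Prod.smul_snd, RingHom.id_apply]; module
    · simp only [rot, Prod.smul_fst, Prod.smul_snd, RingHom.id_apply]; module
    · simp only [rot, Prod.smul_snd, RingHom.id_apply]

theorem rotL_apply {n : ℕ} (θ : ℝ) (x : H n) : rotL θ x = rot θ x := rfl

theorem det_rotL_ne_zero {n : ℕ} (θ : ℝ) : LinearMap.det (rotL (n := n) θ) ≠ 0 := by
  have h : (rotL (n := n) (-θ)) ∘ₗ (rotL θ) = LinearMap.id := by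
    refine LinearMap.ext fun x => ?_
    simp only [LinearMap.comp_apply, rotL_apply, rot_add, neg_add_cancel, rot_zero,
      LinearMap.id_apply]
  intro h0
  have h1 := congrArg LinearMap.det h
  rw [LinearMap.det_comp, h0, mul_zero, LinearMap.det_id] at h1
  exact zero_ne_one h1

theorem pf_ROT : U_ROT := by
  intro n f θ hf
  have i1 : (volume : Measure (V n × ℝ)).IsAddHaarMeasure :=
    Measure.prod.instIsAddHaarMeasure (volume : Measure (V n)) (volume : Measure ℝ)
  have i2 : (volume : Measure (H n)).IsAddHaarMeasure :=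
    Measure.prod.instIsAddHaarMeasure (volume : Measure (V n)) (volume : Measure (V n × ℝ))
  have hmap := Measure.map_linearMap_addHaar_eq_smul_addHaar
    (volume : Measure (H n)) (det_rotL_ne_zero (n := n) θ)
  set c : ℝ≥0∞ := ENNReal.ofReal |(LinearMap.det (rotL (n := n) θ))⁻¹| with hc
  have hmeas : Measurable (rotL (n := n) θ) := (continuous_rot (n := n) θ).measurable
  set B : Set (H n) := {x | N x < 1} with hB
  have hBo : IsOpen B := isOpen_lt continuous_N continuous_const
  have hpre : (rotL (n := n) θ) ⁻¹' B = B := by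
    ext x
    simp only [hB, Set.mem_preimage, Set.mem_ofPred_eq, rotL_apply, N_rot]
  have hvB : volume B = c * volume B := by
    have h1 := congrArg (fun μ : Measure (H n) => μ B) hmap
    simp only [Measure.smul_apply, smul_eq_mul] at h1
    rw [Measure.map_apply hmeas hBo.measurableSet, hpre] at h1
    exact h1
  have h0B : (0 : H n) ∈ B := by
    simp only [hB, Set.mem_ofPred_eq]
    have : N (0 : H n) = 0 := by simp [N, N4, Pool.Agent.H93.HQ.sq]
    rw [this]; exact one_pos
  have hpos : volume B ≠ 0 := (hBo.measure_pos volume ⟨0, h0B⟩).ne'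
  have hfin : volume B ≠ ⊤ := by
    have hsub : B ⊆ Metric.closedBall (0 : H n) 1 := by
      intro x hx
      simp only [hB, Set.mem_ofPred_eq] at hx
      have h4 : N x ^ 4 < 1 := by
        have := pow_lt_pow_left₀ hx (N_nonneg x) (n := 4) (by norm_num)
        simpa using this
      rw [N_pow_four'] at h4
      unfold Pool.Agent.H93.HQ.sq at h4
      rw [mem_closedBall_zero_iff, Prod.norm_def, Prod.norm_def]
      have ha := norm_nonneg x.1
      have hb := norm_nonneg x.2.1
      have h5 : (‖x.1‖ ^ 2 + ‖x.2.1‖ ^ 2) ^ 2 < 1 := by nlinarith [sq_nonneg x.2.2]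
      have h6 : ‖x.1‖ ^ 2 + ‖x.2.1‖ ^ 2 < 1 := by
        by_contra hcon
        push Not at hcon
        nlinarith
      refine max_le ?_ (max_le ?_ ?_)
      · nlinarith [sq_nonneg ‖x.2.1‖]
      · nlinarith [sq_nonneg ‖x.1‖]
      · rw [Real.norm_eq_abs]
        have h7 : x.2.2 ^ 2 < 1 := by nlinarith [sq_nonneg (‖x.1‖ ^ 2 + ‖x.2.1‖ ^ 2)]
        have h8 : |x.2.2| ^ 2 < 1 := by rw [sq_abs]; exact h7
        nlinarith [abs_nonneg x.2.2]
    exact ((measure_mono hsub).trans_lt Metric.isBounded_closedBall.measure_lt_top).ne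
  have hc1 : c = 1 := by
    have h1 : c * volume B = 1 * volume B := by rw [one_mul]; exact hvB.symm
    exact (ENNReal.mul_left_inj hpos hfin).mp h1
  rw [hc1, one_smul] at hmap
  calc ∫⁻ x, f (rot θ x) = ∫⁻ x, f (rotL θ x) := rfl
    _ = ∫⁻ x, f x ∂(Measure.map (rotL (n := n) θ) volume) := (lintegral_map hf hmeas).symm
    _ = ∫⁻ x, f x := by rw [hmap]

end Pool.Agent.H51.HQ
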